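import Pool.Agent.Helper96.ME.Lib

/-!
# MP_bde085_nt, block E, module LBV: basis of the space of functions reproduced by `φ`
-/

set_option autoImplicit false

namespace Pool.Agent.Helper96.ME

open Pool.Agent.Helper96.MP
open scoped MatrixGroups

theorem lbv_psi_mul (Q M : ℕ) (h : Nat.Coprime Q M) : psi (Q * M) = psi Q * psi M := by
  unfold psi
  rw [h.primeFactors_mul, Finset.prod_union h.disjoint_primeFactors]
  push_cast
  ring

/-- the space of functions reproduced by `φ` -/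
noncomputable def lbv_V {R : Type} [CommRing R] [Finite R] (φ : SL(2, R) → ℝ) :
    Submodule ℝ (SL(2, R) → ℝ) where
  carrier := {w | YS φ w}
  add_mem' := by
    intro a b ha hb
    have : Fintype SL(2, R) := Fintype.ofFinite _
    intro y
    have h1 := ha y
    have h2 := hb y
    rw [finsum_eq_sum_of_fintype] at h1 h2 ⊢
    rw [Pi.add_apply, smul_add, ← h1, ← h2, ← Finset.sum_add_distrib]
    exact Finset.sum_congr rfl (fun x _ => by rw [Pi.add_apply, smul_add])
  zero_mem' := by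
    intro y
    simp
  smul_mem' := by
    intro c a ha
    have : Fintype SL(2, R) := Fintype.ofFinite _
    intro y
    have h1 := ha y
    rw [finsum_eq_sum_of_fintype] at h1 ⊢
    rw [Pi.smul_apply, smul_comm, ← h1, Finset.smul_sum]
    exact Finset.sum_congr rfl (fun x _ => by rw [Pi.smul_apply, smul_comm])

theorem lbv_mem {R : Type} [CommRing R] [Finite R] (φ : SL(2, R) → ℝ) (w : SL(2, R) → ℝ) :
    w ∈ lbv_V φ ↔ YS φ w := Iff.rfl

/-- order of the group -/
theorem lbv_card (M : ℕ) (hM : 1 ≤ M) : Nat.card SL(2, ZMod M) ≤ M ^ 4 := by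
  have : NeZero M := ⟨by omega⟩
  have h : Function.Injective (fun g : SL(2, ZMod M) => (fun i j => g i j : Fin 2 → Fin 2 → ZMod M)) := by
    intro g g' hg
    ext i j
    exact congrFun (congrFun hg i) j
  have h1 := Nat.card_le_card_of_injective _ h
  have h2 : Nat.card (Fin 2 → Fin 2 → ZMod M) = M ^ 4 := by
    simp [Nat.card_eq_fintype_card, ZMod.card, ← pow_mul]
  rw [h2] at h1
  exact h1

theorem lbv_units (M : ℕ) (hM : 1 ≤ M) : 1 ≤ Nat.card (ZMod M)ˣ ∧ Nat.card (ZMod M)ˣ ≤ M := by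
  have : NeZero M := ⟨by omega⟩
  refine ⟨Nat.card_pos, ?_⟩
  have h1 := Nat.card_le_card_of_injective (fun u : (ZMod M)ˣ => (u : ZMod M))
    (fun a b hab => Units.ext hab)
  rw [Nat.card_zmod] at h1
  exact h1

theorem lbv_sq_pos {R : Type} [CommRing R] [Finite R] (φ : SL(2, R) → ℝ) (h : φ 1 = 1) :
    1 ≤ sq φ := by
  have : Fintype SL(2, R) := Fintype.ofFinite _
  unfold sq
  rw [finsum_eq_sum_of_fintype]
  have h1 : φ 1 ^ 2 ≤ ∑ x, φ x ^ 2 :=
    Finset.single_le_sum (f := fun x => φ x ^ 2) (fun x _ => sq_nonneg (φ x)) (Finset.mem_univ 1)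
  rw [h] at h1
  simpa using h1

theorem st_LBV (hG : ST_GIND) (hL : ST_LBY) (hKP : ST_KPROD) (hKE : ST_KEQ) (hP : ST_PNF) :
    ST_LBV := by
  intro M Q φ hM hMs hQ hco hφ hint _ _ V hV
  have hne : NeZero M := ⟨by omega⟩
  obtain ⟨hu1, hu2⟩ := lbv_units M hM
  have hK : 1 ≤ (Nat.card (ZMod M)ˣ) ^ 2 := Nat.one_le_pow _ _ hu1
  have hint' : ∀ g, ∃ k : ℤ, (((Nat.card (ZMod M)ˣ) ^ 2 : ℕ) : ℝ) * φ g = k := by
    intro g
    obtain ⟨k, hk⟩ := hint g
    refine ⟨k, ?_⟩
    rw [← hk]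
    push_cast
    ring
  obtain ⟨r, D, hLB, hD, hr, hlog⟩ := hL (ZMod M) φ hφ _ hK hint' (lbv_V φ) (lbv_mem φ)
  have hprod := hKP SL(2, ZMod M) (PN Q) (lbv_V φ) ⊤ r (Fintype.card (PN Q)) D 1 hLB
    (hKE.1 (PN Q)) hD le_rfl V (by
      intro g
      rw [hV g]
      constructor
      · intro h
        exact ⟨h, fun _ => Submodule.mem_top⟩
      · intro h
        exact h.1)
  have hsq : 1 ≤ sq φ := lbv_sq_pos φ hφ.one
  have hGd := (hG M hM hMs φ (Lib.sph_sph0 hφ)).2
  have hrM : (r : ℝ) ≤ psi M := by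
    rw [← hr] at hGd
    exact le_of_mul_le_mul_right hGd (by linarith)
  have hsQ : (Fintype.card (PN Q) : ℝ) ≤ psi Q := by
    have h := (hP Q hQ).2.2
    rw [Nat.card_eq_fintype_card] at h
    exact h
  have hr0 : (0 : ℝ) ≤ r := Nat.cast_nonneg r
  have hs0 : (0 : ℝ) ≤ (Fintype.card (PN Q) : ℝ) := Nat.cast_nonneg _
  have hrs : (r : ℝ) * (Fintype.card (PN Q) : ℝ) ≤ psi (Q * M) := by
    rw [lbv_psi_mul Q M hco, mul_comm (psi Q) (psi M)]
    exact mul_le_mul hrM hsQ hs0 (le_trans hr0 hrM)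
  have hM1 : (1 : ℝ) ≤ M := by exact_mod_cast hM
  have hlM : 0 ≤ Real.log M := Real.log_nonneg hM1
  refine ⟨r * Fintype.card (PN Q), D ^ (Fintype.card (PN Q)) * 1 ^ r, hprod, ?_, ?_, ?_⟩
  · rw [one_pow, mul_one]
    exact one_le_pow₀ hD
  · push_cast
    exact hrs
  · rw [one_pow, mul_one, Real.log_pow]
    have hlK : Real.log (((Nat.card (ZMod M)ˣ) ^ 2 : ℕ) : ℝ) ≤ 2 * Real.log M := by
      rw [Nat.cast_pow, Real.log_pow]
      have h1 : Real.log (Nat.card (ZMod M)ˣ : ℝ) ≤ Real.log M :=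
        Real.log_le_log (by exact_mod_cast hu1) (by exact_mod_cast hu2)
      push_cast
      linarith
    have hlC : Real.log (Nat.card SL(2, ZMod M) : ℝ) ≤ 4 * Real.log M := by
      have h1 : (Nat.card SL(2, ZMod M) : ℝ) ≤ (M : ℝ) ^ 4 := by exact_mod_cast lbv_card M hM
      have h2 : (0 : ℝ) < (Nat.card SL(2, ZMod M) : ℝ) := by
        exact_mod_cast Nat.card_pos
      have h3 := Real.log_le_log h2 h1
      rw [Real.log_pow] at h3
      push_cast at h3
      exact h3
    have h4 : Real.log D ≤ r * (8 * Real.log M) := by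
      refine le_trans hlog ?_
      refine mul_le_mul_of_nonneg_left ?_ hr0
      linarith
    calc (Fintype.card (PN Q) : ℝ) * Real.log D
        ≤ (Fintype.card (PN Q) : ℝ) * (r * (8 * Real.log M)) :=
          mul_le_mul_of_nonneg_left h4 hs0
      _ = ((r : ℝ) * (Fintype.card (PN Q) : ℝ)) * (8 * Real.log M) := by ring
      _ ≤ psi (Q * M) * (8 * Real.log M) :=
          mul_le_mul_of_nonneg_right hrs (by linarith)
      _ = 8 * psi (Q * M) * Real.log M := by ring

end Pool.Agent.Helper96.ME
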